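import Mathlib

set_option autoImplicit false

/-!
Definitions for MP_7f766c_an: a classical multivariable dynamical system `(X, σ)` is a tuple of
proper continuous maps `σ_i : X → X` (`CocompactMap X X`; for locally compact Hausdorff spaces
these are exactly the proper continuous maps). The algebra `C₀(X, ℂ)` is Mathlib's
`ZeroAtInftyContinuousMap`.
-/

namespace Pool.Agent.J4.H77.Pw

open scoped ZeroAtInfty

section Defs

variable {X Y : Type} [TopologicalSpace X] [TopologicalSpace Y]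

/-- The inner product `⟨ξ, η⟩ = ∑ i, ξ_i^* η_i` of the Hilbert module `A^n`, `A = C₀(X)`. -/
noncomputable def ip {n : ℕ} (ξ η : Fin n → C₀(X, ℂ)) : C₀(X, ℂ) := ∑ i, star (ξ i) * η i

/-- The left action `(φ(a) ξ)_i = α_i(a) ξ_i`, `α_i(a) = a ∘ σ_i`, of `A = C₀(X)` on `A^n`, for
proper continuous maps `σ_i : X → X`. -/
noncomputable def act {n : ℕ} (σ : Fin n → CocompactMap X X) (a : C₀(X, ℂ))
    (ξ : Fin n → C₀(X, ℂ)) : Fin n → C₀(X, ℂ) := fun i => a.comp (σ i) * ξ i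

/-- Unitary equivalence of the C*-correspondences `X_{(C₀(X), α)}` and `X_{(C₀(Y), β)}`: there are
a `*`-isomorphism `ρ : C₀(X) → C₀(Y)` and a surjective linear map `U` with
`⟨U ξ, U η⟩ = ρ ⟨ξ, η⟩` and `U (φ(a) ξ) = φ(ρ a) (U ξ)`. -/
def UnitarilyEquivalent {n m : ℕ} (σ : Fin n → CocompactMap X X) (τ : Fin m → CocompactMap Y Y) :
    Prop :=
  ∃ (ρ : C₀(X, ℂ) ≃⋆ₐ[ℂ] C₀(Y, ℂ)) (U : (Fin n → C₀(X, ℂ)) →ₗ[ℂ] (Fin m → C₀(Y, ℂ))),
    Function.Surjective U ∧ (∀ ξ η, ip (U ξ) (U η) = ρ (ip ξ η)) ∧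
    ∀ a ξ, U (act σ a ξ) = act τ (ρ a) (U ξ)

/-- Piecewise conjugacy of two systems with the same number of maps: there are a homeomorphism `γ`
and an open cover `W` of `X` indexed by the permutations with `τ_i ∘ γ = γ ∘ σ_{π(i)}` on `W π`. -/
def PiecewiseConjugate {n : ℕ} (σ : Fin n → CocompactMap X X) (τ : Fin n → CocompactMap Y Y) :
    Prop :=
  ∃ (γ : X ≃ₜ Y) (W : Equiv.Perm (Fin n) → Set X), (∀ π, IsOpen (W π)) ∧
    (⋃ π, W π) = Set.univ ∧ ∀ π, ∀ x ∈ W π, ∀ i, τ i (γ x) = γ (σ (π i) x)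

end Defs

end Pool.Agent.J4.H77.Pw
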