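import Mathlib
import Pool.Agent.J4.H77.PwDefs

set_option autoImplicit false
set_option linter.unusedSectionVars false

/-!
The description of the unitary equivalences of the C*-correspondences of classical multivariable
systems on compact spaces by a homeomorphism and a matrix-valued function.
-/

namespace Pool.Agent.J4.H77.Pw

open scoped ZeroAtInfty


section Extract

variable {X : Type} [TopologicalSpace X] [CompactSpace X] [T2Space X]

/-- A continuous function on a compact space as an element of `C₀(X)`. -/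
def lift (f : C(X, ℂ)) : C₀(X, ℂ) := ⟨f, by simp⟩

@[simp] lemma lift_apply (f : C(X, ℂ)) (x : X) : lift f x = f x := rfl

/-- The star algebra homomorphism of `C(X)` given by an automorphism of `C₀(X)`, `X` compact. -/
noncomputable def toHom (ρ : C₀(X, ℂ) ≃⋆ₐ[ℂ] C₀(X, ℂ)) : C(X, ℂ) →⋆ₐ[ℂ] C(X, ℂ) where
  toFun f := (ρ (lift f) : C(X, ℂ))
  map_one' := by
    have h1 : ∀ f : C₀(X, ℂ), lift (1 : C(X, ℂ)) * f = f := by
      intro f; ext x; simp
    have h2 : ∀ f : C₀(X, ℂ), ρ (lift (1 : C(X, ℂ))) * f = f := by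
      intro f
      obtain ⟨g, hg⟩ := ρ.surjective f
      rw [show f = ρ g from hg.symm, ← map_mul, h1]
    ext x
    have h3 := congrArg (fun f : C₀(X, ℂ) => f x) (h2 (lift 1))
    simpa using h3
  map_mul' f g := by
    have h : lift (f * g) = lift f * lift g := by ext x; simp
    ext x
    simp [h, map_mul]
  map_zero' := by
    have h : lift (0 : C(X, ℂ)) = 0 := by ext x; simp
    ext x
    simp [h]
  map_add' f g := by
    have h : lift (f + g) = lift f + lift g := by ext x; simp
    ext x
    simp [h, map_add]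
  commutes' r := by
    have h1 : ∀ f : C₀(X, ℂ), lift (1 : C(X, ℂ)) * f = f := by
      intro f; ext x; simp
    have h2 : ∀ f : C₀(X, ℂ), ρ (lift (1 : C(X, ℂ))) * f = f := by
      intro f
      obtain ⟨g, hg⟩ := ρ.surjective f
      rw [show f = ρ g from hg.symm, ← map_mul, h1]
    have h : lift (algebraMap ℂ C(X, ℂ) r) = r • lift (1 : C(X, ℂ)) := by
      ext x; simp
    ext x
    have h3 := congrArg (fun f : C₀(X, ℂ) => f x) (h2 (lift 1))
    have h4 : ρ (lift (1 : C(X, ℂ))) x = 1 := by simpa using h3
    simp [h, map_smul, h4]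
  map_star' f := by
    have h : lift (star f) = star (lift f) := by ext x; simp
    ext x
    simp [h, map_star]

open WeakDual.CharacterSpace in
/-- The point map of an automorphism. -/
noncomputable def pt (ρ : C₀(X, ℂ) ≃⋆ₐ[ℂ] C₀(X, ℂ)) : C(X, X) :=
  ((homeoEval X ℂ).symm : C(_, _)).comp
    ((compContinuousMap (toHom ρ)).comp ((homeoEval X ℂ : C(_, _))))

open WeakDual.CharacterSpace in
lemma pt_spec (ρ : C₀(X, ℂ) ≃⋆ₐ[ℂ] C₀(X, ℂ)) (f : C₀(X, ℂ)) (y : X) : ρ f y = f (pt ρ y) := by
  have h1 : homeoEval X ℂ (pt ρ y) = compContinuousMap (toHom ρ) (homeoEval X ℂ y) := by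
    simp [pt]
  have h2 := congrArg (fun φ : WeakDual.characterSpace ℂ C(X, ℂ) => φ (f : C(X, ℂ))) h1
  have h3 : homeoEval X ℂ (pt ρ y) (f : C(X, ℂ)) = f (pt ρ y) := rfl
  have h4 : compContinuousMap (toHom ρ) (homeoEval X ℂ y) (f : C(X, ℂ)) = ρ f y := rfl
  rw [← h4, ← h3]
  exact h2.symm

omit [CompactSpace X] [T2Space X] in
lemma sum_apply {ι : Type*} (s : Finset ι) (f : ι → C₀(X, ℂ)) (x : X) :
    (∑ i ∈ s, f i) x = ∑ i ∈ s, f i x := by
  classical
  induction s using Finset.induction with
  | empty => simp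
  | insert a s ha ih => rw [Finset.sum_insert ha, Finset.sum_insert ha, ← ih]; rfl

lemma sep {x y : X} (h : ∀ f : C₀(X, ℂ), f x = f y) : x = y := by
  by_contra hne
  obtain ⟨f, hf0, hf1, -⟩ := exists_continuous_zero_one_of_isClosed
    (isClosed_singleton (x := x)) (isClosed_singleton (x := y)) (by simpa using hne)
  have := h (lift ⟨fun z => ((f z : ℝ) : ℂ), by fun_prop⟩)
  simp only [lift_apply, ContinuousMap.coe_mk] at this
  rw [hf0 (Set.mem_singleton x), hf1 (Set.mem_singleton y)] at this
  simp at this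

/-- The homeomorphism of an automorphism. -/
noncomputable def ptHomeo (ρ : C₀(X, ℂ) ≃⋆ₐ[ℂ] C₀(X, ℂ)) : X ≃ₜ X where
  toFun := pt ρ
  invFun := pt ρ.symm
  left_inv y := by
    apply sep
    intro f
    rw [← pt_spec, ← pt_spec, StarAlgEquiv.apply_symm_apply]
  right_inv y := by
    apply sep
    intro f
    rw [← pt_spec, ← pt_spec, StarAlgEquiv.symm_apply_apply]
  continuous_toFun := (pt ρ).continuous
  continuous_invFun := (pt ρ.symm).continuous

theorem extract {n : ℕ} {σ τ : Fin n → CocompactMap X X} (h : UnitarilyEquivalent σ τ) :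
    ∃ (g : X ≃ₜ X) (u : X → Matrix (Fin n) (Fin n) ℂ), Continuous u ∧ (∀ y, (u y).det ≠ 0) ∧
      ∀ y i j, u y i j ≠ 0 → σ j (g y) = g (τ i y) := by
  classical
  obtain ⟨ρ, U, hsurj, hip, hact⟩ := h
  let one : C₀(X, ℂ) := lift 1
  have hone : ∀ x, one x = 1 := fun x => rfl
  let e : Fin n → (Fin n → C₀(X, ℂ)) := fun j => Pi.single j one
  have hg : ∀ (f : C₀(X, ℂ)) y, ρ f y = f (ptHomeo ρ y) := fun f y => pt_spec ρ f y
  have ipx : ∀ (ξ η : Fin n → C₀(X, ℂ)) (x : X), ip ξ η x = ∑ i, star (ξ i x) * η i x := by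
    intro ξ η x
    rw [ip, sum_apply]
    rfl
  -- right module maps
  have hright : ∀ (ξ : Fin n → C₀(X, ℂ)) (a : C₀(X, ℂ)) (i : Fin n),
      U (fun k => ξ k * a) i = U ξ i * ρ a := by
    intro ξ a
    set D : Fin n → C₀(X, ℂ) := fun i => U (fun k => ξ k * a) i - U ξ i * ρ a with hD
    have h1 : ∀ η, ip (U η) D = 0 := by
      intro η
      have h2 : ip (U η) D = ip (U η) (U (fun k => ξ k * a)) - ip (U η) (U ξ) * ρ a := by
        ext x
        simp only [ZeroAtInftyContinuousMap.coe_sub, ZeroAtInftyContinuousMap.coe_mul,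
          Pi.sub_apply, Pi.mul_apply, ipx, hD]
        rw [Finset.sum_mul, ← Finset.sum_sub_distrib]
        exact Finset.sum_congr rfl (fun i _ => by ring)
      rw [h2, hip, hip, ← map_mul, ← map_sub]
      have h3 : ip η (fun k => ξ k * a) - ip η ξ * a = 0 := by
        ext x
        simp only [ZeroAtInftyContinuousMap.coe_sub, ZeroAtInftyContinuousMap.coe_mul,
          Pi.sub_apply, Pi.mul_apply, ipx]
        rw [Finset.sum_mul, ← Finset.sum_sub_distrib]
        simp [mul_assoc]
      rw [h3, map_zero]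
    obtain ⟨η, hη⟩ := hsurj D
    have h4 := h1 η
    rw [hη] at h4
    have h5 : ∀ i x, D i x = 0 := by
      intro i x
      have h6 : ∑ i, star (D i x) * D i x = 0 := by rw [← ipx, h4]; rfl
      have h7 : ∑ i, (Complex.normSq (D i x) : ℝ) = 0 := by
        have : ((∑ i, (Complex.normSq (D i x) : ℝ) : ℝ) : ℂ) = 0 := by
          rw [← h6]
          push_cast
          refine Finset.sum_congr rfl (fun i _ => ?_)
          rw [Complex.normSq_eq_conj_mul_self]
          rfl
        exact_mod_cast this
      have h8 := (Finset.sum_eq_zero_iff_of_nonneg (fun i _ => Complex.normSq_nonneg _)).1 h7 i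
        (Finset.mem_univ i)
      exact Complex.normSq_eq_zero.1 h8
    intro i
    ext x
    have := h5 i x
    simp only [hD, ZeroAtInftyContinuousMap.coe_sub, Pi.sub_apply] at this
    exact sub_eq_zero.1 this
  refine ⟨ptHomeo ρ, fun y => Matrix.of fun i j => U (e j) i y, ?_, ?_, ?_⟩
  · refine continuous_matrix (fun i j => ?_)
    exact (U (e j) i).continuous
  · intro y
    have h1 : (Matrix.of fun i j => U (e j) i y).conjTranspose * (Matrix.of fun i j => U (e j) i y)
        = 1 := by
      ext i j
      rw [Matrix.mul_apply]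
      have h2 : ∑ k, (Matrix.of fun i j => U (e j) i y).conjTranspose i k *
          (Matrix.of fun i j => U (e j) i y) k j = ip (U (e i)) (U (e j)) y := by
        rw [ipx]; rfl
      rw [h2, hip, hg, ipx, Matrix.one_apply]
      by_cases hij : i = j
      · subst hij
        rw [if_pos rfl, Finset.sum_eq_single i]
        · simp [e, hone]
        · intro k _ hk
          simp [e, hk]
        · intro h; exact absurd (Finset.mem_univ i) h
      · rw [if_neg hij]
        apply Finset.sum_eq_zero
        intro k _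
        by_cases hk : k = i
        · subst hk
          simp [e, hij]
        · simp [e, hk]
    intro h0
    have h3 := congrArg Matrix.det h1
    rw [Matrix.det_mul, h0, mul_zero, Matrix.det_one] at h3
    exact zero_ne_one h3
  · intro y i j hu
    apply sep
    intro a
    have h1 : act σ a (e j) = fun k => e j k * a.comp (σ j) := by
      funext k
      unfold act
      by_cases hk : k = j
      · subst hk; rw [mul_comm]
      · simp [e, hk]
    have h2 := congrFun (hact a (e j)) i
    rw [h1, hright] at h2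
    have h3 := congrArg (fun f : C₀(X, ℂ) => f y) h2
    simp only [act, ZeroAtInftyContinuousMap.coe_mul, Pi.mul_apply] at h3
    rw [hg] at h3
    have h4 : (ρ a).comp (τ i) y = ρ a (τ i y) := rfl
    rw [h4, hg] at h3
    have h5 : a.comp (σ j) (ptHomeo ρ y) = a (σ j (ptHomeo ρ y)) := rfl
    rw [h5, mul_comm] at h3
    exact mul_right_cancel₀ hu h3

end Extract

end Pool.Agent.J4.H77.Pw
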