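import Mathlib

set_option autoImplicit false

namespace Pool.Agent.J4.H77.Pw

open Complex Set Topology

/-- Continuous logarithms on convex sets. -/
lemma exists_log {E : Type*} [NormedAddCommGroup E] [NormedSpace ℝ E] {S : Set E}
    (hS : Convex ℝ S) {f : E → ℂ} (hf : ContinuousOn f S)
    (h0 : ∀ x ∈ S, f x ≠ 0) : ∃ φ : E → ℂ, ContinuousOn φ S ∧ ∀ x ∈ S, exp (φ x) = f x := by
  classical
  rcases S.eq_empty_or_nonempty with rfl | ⟨x0, hx0⟩
  · exact ⟨fun _ => 0, continuousOn_empty _, fun x hx => absurd hx (notMem_empty x)⟩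
  have hmem : ∀ (t : unitInterval) (a : S), x0 + (t : ℝ) • ((a : E) - x0) ∈ S := by
    intro t a
    exact hS.add_smul_sub_mem hx0 a.2 ⟨t.2.1, t.2.2⟩
  let T : Set ℂ := {0}ᶜ
  have cov := isCoveringMapOn_exp.isCoveringMap_restrictPreimage
  let H : C(unitInterval × S, ({0}ᶜ : Set ℂ)) :=
    ⟨fun p => ⟨f (x0 + (p.1 : ℝ) • ((p.2 : E) - x0)), h0 _ (hmem p.1 p.2)⟩, by
      refine Continuous.subtype_mk ?_ _
      refine hf.comp_continuous ?_ (fun p => hmem p.1 p.2)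
      fun_prop⟩
  have hz : exp (log (f x0)) = f x0 := exp_log (h0 x0 hx0)
  let e0 : exp ⁻¹' ({0}ᶜ : Set ℂ) := ⟨log (f x0), by simp⟩
  let c0 : C(S, exp ⁻¹' ({0}ᶜ : Set ℂ)) := ContinuousMap.const _ e0
  have hc : ∀ a : S, H (0, a) = (({0}ᶜ : Set ℂ).restrictPreimage exp) (c0 a) := by
    intro a
    apply Subtype.ext
    simp [H, c0, e0, hz]
  let L := cov.liftHomotopy H c0 hc
  have hL : ∀ p, exp ((L p : exp ⁻¹' ({0}ᶜ : Set ℂ)) : ℂ) = (H p : ℂ) := by
    intro p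
    have := congr_fun (cov.liftHomotopy_lifts H c0 hc) p
    exact congrArg Subtype.val this
  refine ⟨fun x => if hx : x ∈ S then ((L (1, ⟨x, hx⟩) : exp ⁻¹' ({0}ᶜ : Set ℂ)) : ℂ) else 0,
    ?_, ?_⟩
  · rw [continuousOn_iff_continuous_domRestrict]
    have : Continuous fun a : S => ((L (1, a) : exp ⁻¹' ({0}ᶜ : Set ℂ)) : ℂ) := by
      fun_prop
    convert this using 2 with a
    simp
  · intro x hx
    simp only [hx, dif_pos]
    rw [hL]
    simp [H]

lemma eq_of_int {E : Type*} [NormedAddCommGroup E] [NormedSpace ℝ E] {S : Set E}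
    (hS : Convex ℝ S) {φ ψ : E → ℂ} (hφ : ContinuousOn φ S) (hψ : ContinuousOn ψ S)
    (h : ∀ x ∈ S, exp (φ x) = exp (ψ x)) {x y : E} (hx : x ∈ S) (hy : y ∈ S) :
    φ x - ψ x = φ y - ψ y := by
  have hn : ∀ z ∈ S, ∃ n : ℤ, φ z - ψ z = n * (2 * Real.pi * I) := by
    intro z hz
    obtain ⟨n, hn⟩ := exp_eq_exp_iff_exists_int.1 (h z hz)
    exact ⟨n, by rw [hn]; ring⟩
  have hpre : IsPreconnected S := hS.isPreconnected
  let g : E → ℝ := fun z => ((φ z - ψ z) / (2 * Real.pi * I)).re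
  have hg : ContinuousOn g S := by
    apply continuous_re.comp_continuousOn
    exact (hφ.sub hψ).div_const _
  have hval : ∀ z ∈ S, ∃ n : ℤ, (n : ℝ) = g z ∧ φ z - ψ z = n * (2 * Real.pi * I) := by
    intro z hz
    obtain ⟨n, hn⟩ := hn z hz
    refine ⟨n, ?_, hn⟩
    simp only [g, hn]
    rw [mul_div_cancel_right₀]
    · simp
    · simp [Real.pi_ne_zero]
  have hmt : MapsTo g S (range ((↑) : ℤ → ℝ)) := by
    intro z hz
    obtain ⟨n, hn, -⟩ := hval z hz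
    exact ⟨n, hn⟩
  have hd : IsDiscrete (range ((↑) : ℤ → ℝ)) :=
    Int.isClosedEmbedding_coe_real.isEmbedding.isDiscrete_range
  have hc := hpre.constant_of_mapsTo hd hg hmt hx hy
  obtain ⟨n, hn, hn'⟩ := hval x hx
  obtain ⟨m, hm, hm'⟩ := hval y hy
  rw [hn', hm']
  have : (n : ℝ) = m := by rw [hn, hm, hc]
  have : n = m := by exact_mod_cast this
  rw [this]

end Pool.Agent.J4.H77.Pw
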