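import Mathlib

set_option autoImplicit false
set_option linter.unusedSectionVars false

namespace Pool.Agent.J4.H77.Pw

open Set Topology Filter

section Slow

variable {V : Type} [NormedAddCommGroup V] [NormedSpace ℝ V]

/-- A sequence in `C` with small steps whose tails are dense in `C`. -/
structure Slow (z : ℕ → V) (C : Set V) : Prop where
  mem : ∀ k, z k ∈ C
  slow : Tendsto (fun k => dist (z (k + 1)) (z k)) atTop (𝓝 0)
  dense : ∀ c ∈ C, ∀ ε : ℝ, 0 < ε → ∀ N : ℕ, ∃ k, N ≤ k ∧ dist (z k) c < ε

lemma exists_slow {C : Set V} (hC : IsCompact C) (hconv : Convex ℝ C) (hne : C.Nonempty) :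
    ∃ z : ℕ → V, Slow z C := by
  have : Nonempty C := hne.to_subtype
  have : CompactSpace C := isCompact_iff_compactSpace.1 hC
  let b : ℕ → C := TopologicalSpace.denseSeq C
  have hb : DenseRange b := TopologicalSpace.denseRange_denseSeq C
  let a : ℕ → V := fun m => (b (Nat.unpair m).1 : V)
  have ha : ∀ m, a m ∈ C := fun m => (b _).2
  let z : ℕ → V := fun k => a (Nat.sqrt k) +
    (((k - Nat.sqrt k * Nat.sqrt k : ℕ) : ℝ) / (2 * Nat.sqrt k + 1)) • (a (Nat.sqrt k + 1) - a (Nat.sqrt k))
  have hstep : ∀ k, z (k + 1) - z k =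
      ((1 : ℝ) / (2 * Nat.sqrt k + 1)) • (a (Nat.sqrt k + 1) - a (Nat.sqrt k)) := by
    intro k
    set m := Nat.sqrt k with hm
    have h1 : m * m ≤ k := Nat.sqrt_le k
    have h2 : k < (m + 1) * (m + 1) := Nat.lt_succ_sqrt k
    have hpos : (0 : ℝ) < 2 * m + 1 := by positivity
    rcases Nat.lt_or_ge (k + 1) ((m + 1) * (m + 1)) with h3 | h3
    · have h4 : Nat.sqrt (k + 1) = m := by
        symm
        rw [Nat.eq_sqrt]
        exact ⟨by omega, h3⟩
      simp only [z, h4, ← hm]
      have h5 : ((k + 1 - m * m : ℕ) : ℝ) = ((k - m * m : ℕ) : ℝ) + 1 := by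
        rw [Nat.sub_add_comm h1]; push_cast; ring
      rw [h5, add_sub_add_left_eq_sub, ← sub_smul]
      congr 1
      field_simp
      ring
    · have h6 : k + 1 = (m + 1) * (m + 1) := by omega
      have h4 : Nat.sqrt (k + 1) = m + 1 := by rw [h6]; exact Nat.sqrt_eq (m + 1)
      simp only [z, h4, ← hm]
      have h5 : (k + 1 - (m + 1) * (m + 1) : ℕ) = 0 := by omega
      have h7 : ((k - m * m : ℕ) : ℝ) = 2 * m := by
        have : k - m * m = 2 * m := by
          have : (m + 1) * (m + 1) = m * m + 2 * m + 1 := by ring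
          omega
        rw [this]; push_cast; ring
      rw [h5, h7]
      have h8 : (2 * (m : ℝ)) / (2 * m + 1) = 1 - 1 / (2 * m + 1) := by
        field_simp
        ring
      rw [h8, sub_smul, one_smul]
      simp only [Nat.cast_zero, zero_div, zero_smul, add_zero]
      abel
  refine ⟨z, ⟨?_, ?_, ?_⟩⟩
  · intro k
    refine hconv.add_smul_sub_mem (ha _) (ha _) ⟨by positivity, ?_⟩
    rw [div_le_one (by positivity)]
    have h1 : Nat.sqrt k * Nat.sqrt k ≤ k := Nat.sqrt_le k
    have h2 : k < (Nat.sqrt k + 1) * (Nat.sqrt k + 1) := Nat.lt_succ_sqrt k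
    have h3 : k - Nat.sqrt k * Nat.sqrt k ≤ 2 * Nat.sqrt k + 1 := by
      have : (Nat.sqrt k + 1) * (Nat.sqrt k + 1) = Nat.sqrt k * Nat.sqrt k + 2 * Nat.sqrt k + 1 := by
        ring
      omega
    exact_mod_cast h3
  · obtain ⟨M, hM⟩ := hC.isBounded.exists_norm_le
    have h1 : ∀ k, dist (z (k + 1)) (z k) ≤ (2 * M) * (1 / ((Nat.sqrt k : ℝ) + 1)) := by
      intro k
      rw [dist_eq_norm, hstep, norm_smul, mul_comm]
      have h2 : ‖a (Nat.sqrt k + 1) - a (Nat.sqrt k)‖ ≤ 2 * M := by
        calc _ ≤ ‖a (Nat.sqrt k + 1)‖ + ‖a (Nat.sqrt k)‖ := norm_sub_le _ _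
          _ ≤ M + M := add_le_add (hM _ (ha _)) (hM _ (ha _))
          _ = 2 * M := by ring
      refine mul_le_mul h2 ?_ (norm_nonneg _) (le_trans (norm_nonneg _) h2)
      rw [Real.norm_of_nonneg (by positivity)]
      apply one_div_le_one_div_of_le (by positivity)
      have : (0 : ℝ) ≤ Nat.sqrt k := by positivity
      linarith
    have h3 : Tendsto (fun k : ℕ => (2 * M) * (1 / ((Nat.sqrt k : ℝ) + 1))) atTop (𝓝 0) := by
      have h4 : Tendsto (fun k : ℕ => Nat.sqrt k) atTop atTop := by
        apply tendsto_atTop_atTop.2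
        intro b
        exact ⟨b * b, fun k hk => by rw [Nat.le_sqrt]; exact hk⟩
      have h5 := (tendsto_one_div_add_atTop_nhds_zero_nat (𝕜 := ℝ)).comp h4
      have h6 := h5.const_mul (2 * M)
      rw [mul_zero] at h6
      exact h6
    exact squeeze_zero (fun k => dist_nonneg) h1 h3
  · intro c hc ε hε N
    obtain ⟨i, hi⟩ := hb.exists_dist_lt ⟨c, hc⟩ hε
    refine ⟨Nat.pair i N * Nat.pair i N, ?_, ?_⟩
    · have h1 : N ≤ Nat.pair i N := Nat.right_le_pair i N
      exact h1.trans (Nat.le_mul_self _)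
    · have h2 : Nat.sqrt (Nat.pair i N * Nat.pair i N) = Nat.pair i N := Nat.sqrt_eq _
      have h3 : z (Nat.pair i N * Nat.pair i N) = b i := by
        simp only [z, h2, Nat.sub_self, Nat.cast_zero, zero_div, zero_smul, add_zero, a,
          Nat.unpair_pair]
      rw [h3, dist_comm]
      exact hi

/-- The disjoint union of `C` and a sequence of isolated points. -/
def T (C : Set V) (_z : ℕ → V) : Type := C ⊕ ℕ

/-- The embedding which defines the topology. -/
noncomputable def emb (C : Set V) (z : ℕ → V) : T C z → V × ℝ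
  | Sum.inl c => ((c : V), 0)
  | Sum.inr k => (z k, 1 / ((k : ℝ) + 1))

/-- points of `C` -/
def inC {C : Set V} {z : ℕ → V} (c : C) : T C z := Sum.inl c

/-- isolated points -/
def inN {C : Set V} {z : ℕ → V} (k : ℕ) : T C z := Sum.inr k

/-- The topology of `T` is induced by the embedding. -/
noncomputable instance (C : Set V) (z : ℕ → V) : TopologicalSpace (T C z) :=
  TopologicalSpace.induced (emb C z) inferInstance

variable {C : Set V} {z : ℕ → V}

lemma emb_inC (c : C) : emb C z (inC c) = ((c : V), 0) := rfl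
lemma emb_inN (k : ℕ) : emb C z (inN k) = (z k, 1 / ((k : ℝ) + 1)) := rfl

lemma T.cases (t : T C z) : (∃ c, t = inC c) ∨ ∃ k, t = inN k := by
  rcases t with c | k
  · exact Or.inl ⟨c, rfl⟩
  · exact Or.inr ⟨k, rfl⟩

lemma inN_injective : Function.Injective (inN : ℕ → T C z) := Sum.inr_injective

lemma inC_injective : Function.Injective (inC : C → T C z) := Sum.inl_injective

lemma inC_ne_inN (c : C) (k : ℕ) : (inC c : T C z) ≠ inN k := Sum.inl_ne_inr

lemma emb_injective : Function.Injective (emb C z) := by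
  intro s t h
  rcases T.cases s with ⟨c, rfl⟩ | ⟨k, rfl⟩ <;> rcases T.cases t with ⟨d, rfl⟩ | ⟨l, rfl⟩
  · rw [emb_inC, emb_inC, Prod.mk.injEq] at h
    rw [Subtype.ext h.1]
  · rw [emb_inC, emb_inN, Prod.mk.injEq] at h
    have : (0 : ℝ) < 1 / ((l : ℝ) + 1) := by positivity
    linarith [h.2]
  · rw [emb_inC, emb_inN, Prod.mk.injEq] at h
    have : (0 : ℝ) < 1 / ((k : ℝ) + 1) := by positivity
    linarith [h.2]
  · rw [emb_inN, emb_inN, Prod.mk.injEq] at h
    have h2 := h.2
    have hk : (0 : ℝ) < (k : ℝ) + 1 := by positivity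
    have hl : (0 : ℝ) < (l : ℝ) + 1 := by positivity
    rw [div_eq_div_iff hk.ne' hl.ne'] at h2
    have : (k : ℝ) = l := by linarith
    have : k = l := by exact_mod_cast this
    rw [this]

lemma isInducing_emb : IsInducing (emb C z) := ⟨rfl⟩

lemma isEmbedding_emb : IsEmbedding (emb C z) := ⟨isInducing_emb, emb_injective⟩

instance : T2Space (T C z) := isEmbedding_emb.t2Space

instance : TopologicalSpace.MetrizableSpace (T C z) := isEmbedding_emb.metrizableSpace

lemma continuous_inC : Continuous (inC : C → T C z) := by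
  rw [isInducing_emb.continuous_iff]
  exact (continuous_subtype_val.prodMk continuous_const)

lemma isClosed_range_emb (hC : IsCompact C) (hz : Slow z C) : IsClosed (range (emb C z)) := by
  have h : range (emb C z) = ⋂ m : ℕ, ((C ×ˢ Icc (0 : ℝ) (1 / ((m : ℝ) + 1))) ∪
      (fun k : ℕ => emb C z (inN k)) '' (Iio m)) := by
    ext p
    simp only [mem_range, mem_iInter, mem_union, mem_prod, mem_image, mem_Iio, mem_Icc]
    constructor
    · rintro ⟨t, rfl⟩ m
      rcases T.cases t with ⟨c, rfl⟩ | ⟨k, rfl⟩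
      · left
        rw [emb_inC]
        exact ⟨c.2, le_rfl, by positivity⟩
      · by_cases hk : k < m
        · right; exact ⟨k, hk, rfl⟩
        · left
          rw [emb_inN]
          refine ⟨hz.mem k, by positivity, ?_⟩
          apply one_div_le_one_div_of_le (by positivity)
          have : m ≤ k := not_lt.1 hk
          have : (m : ℝ) ≤ k := by exact_mod_cast this
          linarith
    · intro h
      rcases p with ⟨v, t⟩
      have h0 := h 0
      have h0' : v ∈ C ∧ 0 ≤ t := by
        rcases h0 with ⟨h1, h2, _⟩ | ⟨k, hk, _⟩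
        · exact ⟨h1, h2⟩
        · exact absurd hk (Nat.not_lt_zero k)
      rcases h0'.2.eq_or_lt with ht | ht
      · exact ⟨inC ⟨v, h0'.1⟩, Prod.ext rfl ht⟩
      · obtain ⟨m, hm⟩ := exists_nat_one_div_lt ht
        rcases h m with ⟨_, _, h3⟩ | ⟨k, _, hk⟩
        · exact absurd h3 (not_le.2 hm)
        · exact ⟨inN k, hk⟩
  rw [h]
  apply isClosed_iInter
  intro m
  apply IsClosed.union
  · exact hC.isClosed.prod isClosed_Icc
  · exact ((finite_Iio m).image _).isClosed

lemma compactSpace_T (hC : IsCompact C) (hz : Slow z C) : CompactSpace (T C z) := by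
  have h1 : IsCompact (range (emb C z)) := by
    apply IsCompact.of_isClosed_subset (hC.prod (isCompact_Icc (a := (0 : ℝ)) (b := 1)))
      (isClosed_range_emb hC hz)
    rintro _ ⟨t, rfl⟩
    rcases T.cases t with ⟨c, rfl⟩ | ⟨k, rfl⟩
    · rw [emb_inC]; exact ⟨c.2, le_rfl, zero_le_one⟩
    · rw [emb_inN]
      refine ⟨hz.mem k, by positivity, ?_⟩
      rw [div_le_one (by positivity)]
      have : (0 : ℝ) ≤ k := by positivity
      linarith
  rw [← isCompact_univ_iff, isInducing_emb.isCompact_iff, image_univ]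
  exact h1

/-- The height. -/
noncomputable def ht (t : T C z) : ℝ := (emb C z t).2

lemma continuous_ht : Continuous (ht : T C z → ℝ) :=
  continuous_snd.comp isInducing_emb.continuous

lemma isOpen_inN (k : ℕ) : IsOpen ({inN k} : Set (T C z)) := by
  have h : ({inN k} : Set (T C z)) = ht ⁻¹' Ioo (1 / ((k : ℝ) + 2)) (1 / ((k : ℝ) + 1 / 2)) := by
    ext t
    simp only [mem_singleton_iff, mem_preimage, mem_Ioo]
    rcases T.cases t with ⟨c, rfl⟩ | ⟨l, rfl⟩
    · simp only [ht, emb_inC, inC_ne_inN, false_iff, not_and, not_lt]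
      intro h
      have : (0 : ℝ) < 1 / ((k : ℝ) + 2) := by positivity
      linarith
    · simp only [ht, emb_inN]
      constructor
      · intro h
        rw [inN_injective h]
        constructor
        · apply one_div_lt_one_div_of_lt (by positivity); linarith
        · apply one_div_lt_one_div_of_lt (by positivity); linarith
      · rintro ⟨h1, h2⟩
        rw [one_div_lt_one_div (by positivity) (by positivity)] at h1 h2
        have h3 : (l : ℝ) < k + 1 := by linarith
        have h4 : (k : ℝ) < l + 1 := by linarith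
        have h3' : l < k + 1 := by exact_mod_cast h3
        have h4' : k < l + 1 := by exact_mod_cast h4
        rw [show l = k by omega]
  rw [h]
  exact isOpen_Ioo.preimage continuous_ht

lemma mem_closure_inN (hz : Slow z C) (t : T C z) : t ∈ closure (range (inN : ℕ → T C z)) := by
  rcases T.cases t with ⟨c, rfl⟩ | ⟨l, rfl⟩
  · rw [isInducing_emb.closure_eq_preimage_closure_image, mem_preimage, Metric.mem_closure_iff]
    intro ε hε
    obtain ⟨N, hN⟩ := exists_nat_one_div_lt hε
    obtain ⟨k, hk, hd⟩ := hz.dense c c.2 ε hε N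
    refine ⟨emb C z (inN k), ⟨inN k, ⟨k, rfl⟩, rfl⟩, ?_⟩
    rw [emb_inC, emb_inN, Prod.dist_eq, max_lt_iff]
    refine ⟨by rw [dist_comm]; exact hd, ?_⟩
    have h1 : (0 : ℝ) < 1 / ((k : ℝ) + 1) := by positivity
    simp only [Real.dist_eq, zero_sub, abs_neg]
    rw [abs_of_pos h1]
    refine lt_of_le_of_lt ?_ hN
    apply one_div_le_one_div_of_le (by positivity)
    have : (N : ℝ) ≤ k := by exact_mod_cast hk
    linarith
  · exact subset_closure ⟨l, rfl⟩

lemma not_isOpen_inC (hz : Slow z C) (c : C) : ¬ IsOpen ({inC c} : Set (T C z)) := by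
  intro h
  obtain ⟨t, h1, ⟨k, rfl⟩⟩ := mem_closure_iff.1 (mem_closure_inN hz (inC c)) _ h rfl
  exact inC_ne_inN c k h1.symm

/-- The shift. -/
def shiftT : T C z → T C z
  | Sum.inl c => Sum.inl c
  | Sum.inr k => Sum.inr (k - 1)

lemma shiftT_inC (c : C) : shiftT (inC c : T C z) = inC c := rfl
lemma shiftT_inN (k : ℕ) : shiftT (inN k : T C z) = inN (k - 1) := rfl

lemma continuous_shiftT (hz : Slow z C) : Continuous (shiftT : T C z → T C z) := by
  rw [continuous_iff_continuousAt]
  intro t
  rcases T.cases t with ⟨c, rfl⟩ | ⟨l, rfl⟩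
  · rw [ContinuousAt, isInducing_emb.tendsto_nhds_iff, shiftT_inC]
    have h1 : Tendsto (emb C z) (𝓝 (inC c)) (𝓝 (emb C z (inC c))) :=
      isInducing_emb.continuous.continuousAt
    have hw : Tendsto (fun k : ℕ => dist (emb C z (inN (k - 1))) (emb C z (inN k))) atTop (𝓝 0) := by
      rw [← tendsto_add_atTop_iff_nat 1]
      have h2 : ∀ k : ℕ, dist (emb C z (inN (k + 1 - 1))) (emb C z (inN (k + 1)))
          ≤ dist (z (k + 1)) (z k) + 1 / ((k : ℝ) + 1) := by
        intro k
        rw [Nat.add_sub_cancel, emb_inN, emb_inN, Prod.dist_eq]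
        apply max_le
        · rw [dist_comm]
          have : (0 : ℝ) ≤ 1 / ((k : ℝ) + 1) := by positivity
          linarith
        · have h3 : (0 : ℝ) ≤ 1 / (((k + 1 : ℕ) : ℝ) + 1) := by positivity
          have h4 : 1 / (((k + 1 : ℕ) : ℝ) + 1) ≤ 1 / ((k : ℝ) + 1) := by
            apply one_div_le_one_div_of_le (by positivity)
            push_cast; linarith
          simp only [Real.dist_eq]
          rw [abs_of_nonneg (by linarith)]
          linarith [dist_nonneg (x := z (k + 1)) (y := z k)]
      have h5 := hz.slow.add (tendsto_one_div_add_atTop_nhds_zero_nat (𝕜 := ℝ))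
      rw [add_zero] at h5
      exact squeeze_zero (fun k => dist_nonneg) h2 h5
    have h6 : Tendsto (fun t : T C z => dist (emb C z (shiftT t)) (emb C z t)) (𝓝 (inC c)) (𝓝 0) := by
      rw [Metric.tendsto_nhds]
      intro ε hε
      obtain ⟨N, hN⟩ := (Metric.tendsto_atTop.1 hw) ε hε
      have h7 : ht ⁻¹' Iio (1 / ((N : ℝ) + 1)) ∈ 𝓝 (inC c : T C z) := by
        apply (isOpen_Iio.preimage continuous_ht).mem_nhds
        simp only [mem_preimage, ht, emb_inC, mem_Iio]
        positivity
      filter_upwards [h7] with t ht'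
      rcases T.cases t with ⟨d, rfl⟩ | ⟨k, rfl⟩
      · rw [shiftT_inC, dist_self, dist_self]; exact hε
      · simp only [mem_preimage, ht, emb_inN, mem_Iio] at ht'
        rw [one_div_lt_one_div (by positivity) (by positivity)] at ht'
        have : (N : ℝ) < k := by linarith
        have : N < k := by exact_mod_cast this
        rw [shiftT_inN]
        exact hN k this.le
    have h8 := h1.congr_dist (f₂ := fun t => emb C z (shiftT t)) (by
      refine h6.congr (fun t => ?_)
      rw [dist_comm])
    exact h8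
  · rw [ContinuousAt]
    have : 𝓝 (inN l : T C z) = pure (inN l) := (isOpen_singleton_iff_nhds_eq_pure _).1 (isOpen_inN l)
    rw [this]
    exact tendsto_pure_nhds _ _

end Slow

end Pool.Agent.J4.H77.Pw
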