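import Mathlib
import Pool.Agent.J4.H77.PwLog

set_option autoImplicit false

namespace Pool.Agent.J4.H77.Pw

open Complex Set Topology Equiv

/-- The ambient space of the simplex whose vertices are the permutations of four letters. -/
abbrev Amb : Type := Perm (Fin 4) → ℝ

/-- The face of the simplex spanned by a set of permutations. -/
def face (F : Set (Perm (Fin 4))) : Set Amb :=
  {x | x ∈ stdSimplex ℝ (Perm (Fin 4)) ∧ ∀ κ, κ ∉ F → x κ = 0}

/-- The vertices. -/
noncomputable def vtx (κ : Perm (Fin 4)) : Amb := Pi.single κ 1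

lemma vtx_mem {κ : Perm (Fin 4)} {F : Set (Perm (Fin 4))} (h : κ ∈ F) : vtx κ ∈ face F := by
  refine ⟨single_mem_stdSimplex _ _, fun μ hμ => ?_⟩
  have : μ ≠ κ := fun h' => hμ (h' ▸ h)
  simp [vtx, this]

lemma convex_face (F : Set (Perm (Fin 4))) : Convex ℝ (face F) := by
  intro x hx y hy a b ha hb hab
  refine ⟨convex_stdSimplex ℝ _ hx.1 hy.1 ha hb hab, fun κ hκ => ?_⟩
  simp [hx.2 κ hκ, hy.2 κ hκ]

lemma face_sub (F : Set (Perm (Fin 4))) : face F ⊆ stdSimplex ℝ (Perm (Fin 4)) := fun _ hx => hx.1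

lemma face_mono {F G : Set (Perm (Fin 4))} (h : F ⊆ G) : face F ⊆ face G :=
  fun _ hx => ⟨hx.1, fun κ hκ => hx.2 κ (fun h' => hκ (h h'))⟩

lemma det_block (M : Matrix (Fin 4) (Fin 4) ℂ)
    (h02 : M 0 2 = 0) (h03 : M 0 3 = 0) (h12 : M 1 2 = 0) (h13 : M 1 3 = 0)
    (h20 : M 2 0 = 0) (h21 : M 2 1 = 0) (h30 : M 3 0 = 0) (h31 : M 3 1 = 0) :
    M.det = (M 0 0 * M 1 1 - M 0 1 * M 1 0) * (M 2 2 * M 3 3 - M 2 3 * M 3 2) := by
  rw [Matrix.det_succ_row_zero]
  simp [Fin.sum_univ_succ, Matrix.det_fin_three, Matrix.submatrix_apply, Fin.succAbove,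
    h02, h03]
  simp [h12, h13, h20, h21, h30, h31]
  ring

/-- The block structure forced by the permutations. -/
def Blocks (u : Amb → Matrix (Fin 4) (Fin 4) ℂ) : Prop :=
  ∀ (B B' : Finset (Fin 4)), ∀ x ∈ face {κ | B.map κ.toEmbedding = B'}, ∀ k l,
    ¬ (l ∈ B ↔ k ∈ B') → u x k l = 0

section

variable {u : Amb → Matrix (Fin 4) (Fin 4) ℂ}

lemma single_row (hb : Blocks u) {i i' : Fin 4} {x : Amb} (hx : x ∈ face {κ | κ i = i'}) :
    (∀ k, k ≠ i' → u x k i = 0) ∧ (∀ l, l ≠ i → u x i' l = 0) := by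
  have h1 : face {κ : Perm (Fin 4) | κ i = i'} ⊆
      face {κ | ({i} : Finset (Fin 4)).map κ.toEmbedding = {i'}} := by
    apply face_mono
    intro κ hκ
    simp only [mem_ofPred_eq] at hκ ⊢
    simp [hκ]
  have h2 := hb {i} {i'} x (h1 hx)
  refine ⟨fun k hk => h2 k i (by simp [hk]), fun l hl => h2 i' l (by simp [hl])⟩

lemma single_ne (hb : Blocks u) (hdet : ∀ x ∈ stdSimplex ℝ (Perm (Fin 4)), (u x).det ≠ 0)
    {i i' : Fin 4} {x : Amb} (hx : x ∈ face {κ | κ i = i'}) : u x i' i ≠ 0 := by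
  intro h0
  apply hdet x (face_sub _ hx)
  apply Matrix.det_eq_zero_of_column_eq_zero i
  intro k
  by_cases hk : k = i'
  · rw [hk]; exact h0
  · exact (single_row hb hx).1 k hk

lemma pair_zero (hb : Blocks u) (κ e : Perm (Fin 4)) {x : Amb}
    (hx : x ∈ face {μ | ({e 0, e 1} : Finset (Fin 4)).map μ.toEmbedding = {κ 0, κ 1}}) :
    ∀ p q : Fin 4, ¬ (q.val < 2 ↔ p.val < 2) → u x (κ p) (e q) = 0 := by
  intro p q hpq
  apply hb _ _ x hx
  have h1 : e q ∈ ({e 0, e 1} : Finset (Fin 4)) ↔ q.val < 2 := by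
    simp only [Finset.mem_insert, Finset.mem_singleton, EmbeddingLike.apply_eq_iff_eq]
    clear hpq; revert q; decide
  have h2 : κ p ∈ ({κ 0, κ 1} : Finset (Fin 4)) ↔ p.val < 2 := by
    simp only [Finset.mem_insert, Finset.mem_singleton, EmbeddingLike.apply_eq_iff_eq]
    clear hpq; revert p; decide
  rw [h1, h2]
  exact hpq

/-- The upper left minor. -/
noncomputable def D1 (u : Amb → Matrix (Fin 4) (Fin 4) ℂ) (κ e : Perm (Fin 4)) (x : Amb) : ℂ :=
  u x (κ 0) (e 0) * u x (κ 1) (e 1) - u x (κ 0) (e 1) * u x (κ 1) (e 0)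

/-- The lower right minor. -/
noncomputable def D2 (u : Amb → Matrix (Fin 4) (Fin 4) ℂ) (κ e : Perm (Fin 4)) (x : Amb) : ℂ :=
  u x (κ 2) (e 2) * u x (κ 3) (e 3) - u x (κ 2) (e 3) * u x (κ 3) (e 2)

lemma det_sq (hb : Blocks u) (κ e : Perm (Fin 4)) {x : Amb}
    (hx : x ∈ face {μ | ({e 0, e 1} : Finset (Fin 4)).map μ.toEmbedding = {κ 0, κ 1}}) :
    (u x).det ^ 2 = D1 u κ e x ^ 2 * D2 u κ e x ^ 2 := by
  have h := pair_zero hb κ e hx
  have h1 : ((u x).submatrix κ e).det = D1 u κ e x * D2 u κ e x := by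
    rw [det_block]
    · rfl
    all_goals simp only [Matrix.submatrix_apply]; apply h; decide
  have h2 : ((u x).submatrix κ e).det = (Perm.sign κ : ℂ) * (Perm.sign e : ℂ) * (u x).det := by
    have : (u x).submatrix κ e = ((u x).submatrix κ id).submatrix id e := by
      ext; simp
    rw [this, Matrix.det_permute', Matrix.det_permute]
    ring
  have h3 : ((Perm.sign κ : ℂ)) ^ 2 = 1 := by
    rcases Int.units_eq_one_or (Perm.sign κ) with h | h <;> simp [h]
  have h4 : ((Perm.sign e : ℂ)) ^ 2 = 1 := by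
    rcases Int.units_eq_one_or (Perm.sign e) with h | h <;> simp [h]
  calc (u x).det ^ 2 = ((Perm.sign κ : ℂ) * (Perm.sign e : ℂ) * (u x).det) ^ 2 := by
        rw [mul_pow, mul_pow, h3, h4]; ring
    _ = (D1 u κ e x * D2 u κ e x) ^ 2 := by rw [← h2, h1]
    _ = _ := by ring

lemma exp_sum_pair {a b : ℂ} : exp (2 * a + 2 * b) = (exp a * exp b) ^ 2 := by
  rw [← exp_add, ← exp_nat_mul]; congr 1; push_cast; ring

/-- The logarithms of the single entries. -/
structure Logs (u : Amb → Matrix (Fin 4) (Fin 4) ℂ) where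
  /-- a logarithm of the determinant -/
  full : Amb → ℂ
  /-- logarithms of the entries `(i', i)` on the face of all permutations which map `i` to `i'` -/
  one : Fin 4 → Fin 4 → Amb → ℂ
  full_cont : ContinuousOn full (stdSimplex ℝ (Perm (Fin 4)))
  one_cont : ∀ i i', ContinuousOn (one i i') (face {κ | κ i = i'})
  full_exp : ∀ x ∈ stdSimplex ℝ (Perm (Fin 4)), exp (full x) = (u x).det
  one_exp : ∀ i i', ∀ x ∈ face {κ | κ i = i'}, exp (one i i' x) = u x i' i

lemma exists_logs (hu : ContinuousOn u (stdSimplex ℝ (Perm (Fin 4)))) (hb : Blocks u)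
    (hdet : ∀ x ∈ stdSimplex ℝ (Perm (Fin 4)), (u x).det ≠ 0) : Nonempty (Logs u) := by
  have hent : ∀ i j, ContinuousOn (fun x => u x i j) (stdSimplex ℝ (Perm (Fin 4))) := by
    intro i j
    exact (continuous_apply_apply i j).comp_continuousOn hu
  obtain ⟨φ, h1, h2⟩ := exists_log (convex_stdSimplex ℝ (Perm (Fin 4)))
    (f := fun x => (u x).det) (by
      exact (Continuous.matrix_det continuous_id).comp_continuousOn hu) hdet
  have h3 : ∀ i i', ∃ ψ : Amb → ℂ, ContinuousOn ψ (face {κ | κ i = i'}) ∧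
      ∀ x ∈ face {κ | κ i = i'}, exp (ψ x) = u x i' i := by
    intro i i'
    exact exists_log (convex_face _) ((hent i' i).mono (face_sub _))
      (fun x hx => single_ne hb hdet hx)
  choose ψ h4 h5 using h3
  exact ⟨⟨φ, ψ, h1, h4, h2, h5⟩⟩

/-- The discrepancy at a vertex. -/
noncomputable def Logs.s (L : Logs u) (κ : Perm (Fin 4)) : ℂ :=
  L.full (vtx κ) - ∑ i, L.one i (κ i) (vtx κ)

lemma Logs.exp_s (hb : Blocks u) (L : Logs u) (κ : Perm (Fin 4)) :
    exp (L.s κ) = (Perm.sign κ : ℂ) := by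
  have hv : vtx κ ∈ stdSimplex ℝ (Perm (Fin 4)) := face_sub _ (vtx_mem (mem_univ κ))
  have h1 : ∀ i, vtx κ ∈ face {μ | μ i = κ i} := fun i => vtx_mem rfl
  have h2 : (u (vtx κ)).det = (Perm.sign κ : ℂ) * ∏ i, u (vtx κ) (κ i) i := by
    rw [Matrix.det_apply]
    rw [Finset.sum_eq_single κ]
    · rw [Units.smul_def, zsmul_eq_mul]
    · intro μ _ hμ
      have : ∃ i, μ i ≠ κ i := by
        by_contra hcon
        push Not at hcon
        exact hμ (Equiv.ext hcon)
      obtain ⟨i, hi⟩ := this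
      have hz : u (vtx κ) (μ i) i = 0 := (single_row hb (h1 i)).1 _ hi
      have hz' : ∏ j, u (vtx κ) (μ j) j = 0 := Finset.prod_eq_zero (Finset.mem_univ i) hz
      rw [hz', smul_zero]
    · intro h; exact absurd (Finset.mem_univ κ) h
  rw [Logs.s, exp_sub, L.full_exp _ hv, exp_sum, h2]
  have h3 : ∀ i, exp (L.one i (κ i) (vtx κ)) = u (vtx κ) (κ i) i := fun i => L.one_exp _ _ _ (h1 i)
  rw [Finset.prod_congr rfl (fun i _ => h3 i), mul_div_assoc, div_self, mul_one]
  rw [← Finset.prod_congr rfl (fun i _ => h3 i)]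
  exact Finset.prod_ne_zero_iff.2 (fun i _ => exp_ne_zero _)

lemma Logs.s_eq (L : Logs u) (μ e : Perm (Fin 4)) : L.s μ =
    L.full (vtx μ) - (L.one (e 0) (μ (e 0)) (vtx μ) + L.one (e 1) (μ (e 1)) (vtx μ)
      + L.one (e 2) (μ (e 2)) (vtx μ) + L.one (e 3) (μ (e 3)) (vtx μ)) := by
  rw [Logs.s, ← Equiv.sum_comp e, Fin.sum_univ_four]

/-- The four permutations of a square. -/
def qa (κ e : Perm (Fin 4)) : Perm (Fin 4) := κ * e⁻¹
/-- The four permutations of a square. -/
def qb (κ e : Perm (Fin 4)) : Perm (Fin 4) := κ * swap 0 1 * e⁻¹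
/-- The four permutations of a square. -/
def qc (κ e : Perm (Fin 4)) : Perm (Fin 4) := κ * (swap 0 1 * swap 2 3) * e⁻¹
/-- The four permutations of a square. -/
def qd (κ e : Perm (Fin 4)) : Perm (Fin 4) := κ * swap 2 3 * e⁻¹

lemma Logs.square (hb : Blocks u) (hu : ContinuousOn u (stdSimplex ℝ (Perm (Fin 4))))
    (hdet : ∀ x ∈ stdSimplex ℝ (Perm (Fin 4)), (u x).det ≠ 0) (L : Logs u)
    (κ e : Perm (Fin 4)) :
    L.s (qa κ e) + L.s (qc κ e) = L.s (qb κ e) + L.s (qd κ e) := by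
  have a0 : qa κ e (e 0) = κ 0 := by simp [qa]
  have a1 : qa κ e (e 1) = κ 1 := by simp [qa]
  have a2 : qa κ e (e 2) = κ 2 := by simp [qa]
  have a3 : qa κ e (e 3) = κ 3 := by simp [qa]
  have b0 : qb κ e (e 0) = κ 1 := by simp [qb]
  have b1 : qb κ e (e 1) = κ 0 := by simp [qb]
  have b2 : qb κ e (e 2) = κ 2 := by
    simp [qb]; rw [swap_apply_of_ne_of_ne (by decide) (by decide)]
  have b3 : qb κ e (e 3) = κ 3 := by
    simp [qb]; rw [swap_apply_of_ne_of_ne (by decide) (by decide)]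
  have d0 : qd κ e (e 0) = κ 0 := by
    simp [qd]; rw [swap_apply_of_ne_of_ne (by decide) (by decide)]
  have d1 : qd κ e (e 1) = κ 1 := by
    simp [qd]; rw [swap_apply_of_ne_of_ne (by decide) (by decide)]
  have d2 : qd κ e (e 2) = κ 3 := by simp [qd]
  have d3 : qd κ e (e 3) = κ 2 := by simp [qd]
  have s0 : (swap (0 : Fin 4) 1 * swap (2 : Fin 4) 3 : Perm (Fin 4)) 0 = 1 := by decide
  have s1 : (swap (0 : Fin 4) 1 * swap (2 : Fin 4) 3 : Perm (Fin 4)) 1 = 0 := by decide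
  have s2 : (swap (0 : Fin 4) 1 * swap (2 : Fin 4) 3 : Perm (Fin 4)) 2 = 3 := by decide
  have s3 : (swap (0 : Fin 4) 1 * swap (2 : Fin 4) 3 : Perm (Fin 4)) 3 = 2 := by decide
  have hc : ∀ i, qc κ e (e i) = κ ((swap (0 : Fin 4) 1 * swap (2 : Fin 4) 3 : Perm (Fin 4)) i) :=
    fun i => by simp [qc]
  have c0 : qc κ e (e 0) = κ 1 := by rw [hc, s0]
  have c1 : qc κ e (e 1) = κ 0 := by rw [hc, s1]
  have c2 : qc κ e (e 2) = κ 3 := by rw [hc, s2]
  have c3 : qc κ e (e 3) = κ 2 := by rw [hc, s3]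
  -- the square
  set R : Set Amb := face {μ | ({e 0, e 1} : Finset (Fin 4)).map μ.toEmbedding = {κ 0, κ 1}}
    with hR
  have hentR : ∀ i j, ContinuousOn (fun x => u x i j) (stdSimplex ℝ (Perm (Fin 4))) := by
    intro i j
    exact (continuous_apply_apply i j).comp_continuousOn hu
  have hRs : R ⊆ stdSimplex ℝ (Perm (Fin 4)) := face_sub _
  have hD1c : ContinuousOn (fun x => D1 u κ e x ^ 2) R := by
    have : ContinuousOn (fun x => D1 u κ e x ^ 2) (stdSimplex ℝ (Perm (Fin 4))) := by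
      unfold D1
      exact (((hentR _ _).mul (hentR _ _)).sub ((hentR _ _).mul (hentR _ _))).pow 2
    exact this.mono hRs
  have hD2c : ContinuousOn (fun x => D2 u κ e x ^ 2) R := by
    have : ContinuousOn (fun x => D2 u κ e x ^ 2) (stdSimplex ℝ (Perm (Fin 4))) := by
      unfold D2
      exact (((hentR _ _).mul (hentR _ _)).sub ((hentR _ _).mul (hentR _ _))).pow 2
    exact this.mono hRs
  have hsq : ∀ x ∈ R, (u x).det ^ 2 = D1 u κ e x ^ 2 * D2 u κ e x ^ 2 :=
    fun x hx => det_sq hb κ e hx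
  have hne : ∀ x ∈ R, D1 u κ e x ^ 2 * D2 u κ e x ^ 2 ≠ 0 := by
    intro x hx
    rw [← hsq x hx]
    exact pow_ne_zero _ (hdet x (hRs hx))
  obtain ⟨ψ1, h11, h12⟩ := exists_log (convex_face _) hD1c
    (fun x hx h0 => hne x hx (by rw [h0, zero_mul]))
  obtain ⟨ψ2, h21, h22⟩ := exists_log (convex_face _) hD2c
    (fun x hx h0 => hne x hx (by rw [h0, mul_zero]))
  have mem : ∀ μ : Perm (Fin 4), (μ (e 0) = κ 0 ∧ μ (e 1) = κ 1) ∨ (μ (e 0) = κ 1 ∧ μ (e 1) = κ 0) →
      μ ∈ {μ : Perm (Fin 4) | ({e 0, e 1} : Finset (Fin 4)).map μ.toEmbedding = {κ 0, κ 1}} := by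
    intro μ hμ
    simp only [mem_ofPred_eq, Finset.map_insert, Finset.map_singleton, Equiv.coe_toEmbedding]
    rcases hμ with ⟨h1, h2⟩ | ⟨h1, h2⟩
    · rw [h1, h2]
    · rw [h1, h2, Finset.pair_comm]
  have ma := mem _ (Or.inl ⟨a0, a1⟩)
  have mb := mem _ (Or.inr ⟨b0, b1⟩)
  have mc := mem _ (Or.inr ⟨c0, c1⟩)
  have md := mem _ (Or.inl ⟨d0, d1⟩)
  have va : vtx (qa κ e) ∈ R := vtx_mem ma
  have vb : vtx (qb κ e) ∈ R := vtx_mem mb
  have vc : vtx (qc κ e) ∈ R := vtx_mem mc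
  have vd : vtx (qd κ e) ∈ R := vtx_mem md
  -- the full determinant
  have full : ∀ x ∈ R, ∀ y ∈ R, 2 * L.full x - (ψ1 x + ψ2 x) = 2 * L.full y - (ψ1 y + ψ2 y) := by
    intro x hx y hy
    refine eq_of_int (S := R) (φ := fun x => 2 * L.full x) (ψ := fun x => ψ1 x + ψ2 x)
      (convex_face _) ?_ (h11.add h21) ?_ hx hy
    · exact (L.full_cont.mono hRs).const_mul 2 |>.congr (fun _ _ => rfl)
    · intro z hz
      rw [exp_add, h12 z hz, h22 z hz, ← hsq z hz, ← L.full_exp z (hRs hz), ← exp_nat_mul]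
      norm_num
  -- the edges
  have edge : ∀ (μ ν : Perm (Fin 4)) (i i' j j' : Fin 4) (ψ : Amb → ℂ),
      ContinuousOn ψ R → vtx μ ∈ R → vtx ν ∈ R → face {μ, ν} ⊆ R →
      μ i = i' → ν i = i' → μ j = j' → ν j = j' →
      (∀ x ∈ R, x ∈ face {κ | κ i = i'} → x ∈ face {κ | κ j = j'} →
        exp (ψ x) = (u x i' i * u x j' j) ^ 2) →
        ψ (vtx μ) - (2 * L.one i i' (vtx μ) + 2 * L.one j j' (vtx μ))
          = ψ (vtx ν) - (2 * L.one i i' (vtx ν) + 2 * L.one j j' (vtx ν)) := by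
    intro μ ν i i' j j' ψ hψ hμR hνR hER hμi hνi hμj hνj hexp
    have f1 : face {μ, ν} ⊆ face {κ | κ i = i'} :=
      face_mono (by rintro η (rfl | rfl) <;> assumption)
    have f2 : face {μ, ν} ⊆ face {κ | κ j = j'} :=
      face_mono (by rintro η (rfl | rfl) <;> assumption)
    refine eq_of_int (S := face {μ, ν}) (φ := ψ)
      (ψ := fun x => 2 * L.one i i' x + 2 * L.one j j' x)
      (convex_face _) (hψ.mono hER) ?_ ?_ (vtx_mem (by simp)) (vtx_mem (by simp))
    · exact (((L.one_cont i i').mono f1).const_mul 2).add (((L.one_cont j j').mono f2).const_mul 2)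
        |>.congr (fun _ _ => rfl)
    · intro z hz
      rw [hexp z (hER hz) (f1 hz) (f2 hz), exp_sum_pair, L.one_exp _ _ _ (f1 hz),
        L.one_exp _ _ _ (f2 hz)]
  have sub : ∀ μ ν : Perm (Fin 4),
      μ ∈ {μ : Perm (Fin 4) | ({e 0, e 1} : Finset (Fin 4)).map μ.toEmbedding = {κ 0, κ 1}} →
      ν ∈ {μ : Perm (Fin 4) | ({e 0, e 1} : Finset (Fin 4)).map μ.toEmbedding = {κ 0, κ 1}} →
      face {μ, ν} ⊆ R := by
    intro μ ν h1 h2
    exact face_mono (by rintro η (rfl | rfl) <;> assumption)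
  have k01 : κ 0 ≠ κ 1 := fun h => by simpa using κ.injective h
  have k23 : κ 2 ≠ κ 3 := fun h => by simpa using κ.injective h
  have E1 := edge _ _ (e 2) (κ 2) (e 3) (κ 3) ψ2 h21 va vb (sub _ _ ma mb) a2 b2 a3 b3 (by
    intro x hx g1 g2
    rw [h22 x hx, D2, (single_row hb g1).1 (κ 3) k23.symm]
    ring)
  have E3 := edge _ _ (e 3) (κ 2) (e 2) (κ 3) ψ2 h21 vc vd (sub _ _ mc md) c3 d3 c2 d2 (by
    intro x hx g1 g2
    rw [h22 x hx, D2, (single_row hb g1).1 (κ 3) k23.symm]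
    ring)
  have E2 := edge _ _ (e 1) (κ 0) (e 0) (κ 1) ψ1 h11 vb vc (sub _ _ mb mc) b1 c1 b0 c0 (by
    intro x hx g1 g2
    rw [h12 x hx, D1, (single_row hb g1).1 (κ 1) k01.symm]
    ring)
  have E4 := edge _ _ (e 0) (κ 0) (e 1) (κ 1) ψ1 h11 va vd (sub _ _ ma md) a0 d0 a1 d1 (by
    intro x hx g1 g2
    rw [h12 x hx, D1, (single_row hb g1).1 (κ 1) k01.symm]
    ring)
  have F1 := full _ va _ vb
  have F2 := full _ vb _ vc
  have F3 := full _ vc _ vd
  rw [L.s_eq (qa κ e) e, L.s_eq (qb κ e) e, L.s_eq (qc κ e) e, L.s_eq (qd κ e) e,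
    a0, a1, a2, a3, b0, b1, b2, b3, c0, c1, c2, c3, d0, d1, d2, d3]
  linear_combination (1 / 2) * F1 + (1 / 2) * F3 + (1 / 2) * E1 + (1 / 2) * E3
    + (1 / 2) * E4 - (1 / 2) * E2

end

/-- A permutation of four letters given by its values and those of its inverse. -/
def pm (f g : Fin 4 → Fin 4) (h1 : ∀ x, g (f x) = x) (h2 : ∀ x, f (g x) = x) : Perm (Fin 4) :=
  ⟨f, g, h1, h2⟩

/-- A permutation. -/
def p0123 : Perm (Fin 4) := pm ![0, 1, 2, 3] ![0, 1, 2, 3] (by decide) (by decide)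
/-- A permutation. -/
def p0132 : Perm (Fin 4) := pm ![0, 1, 3, 2] ![0, 1, 3, 2] (by decide) (by decide)
/-- A permutation. -/
def p0213 : Perm (Fin 4) := pm ![0, 2, 1, 3] ![0, 2, 1, 3] (by decide) (by decide)
/-- A permutation. -/
def p0231 : Perm (Fin 4) := pm ![0, 2, 3, 1] ![0, 3, 1, 2] (by decide) (by decide)
/-- A permutation. -/
def p0312 : Perm (Fin 4) := pm ![0, 3, 1, 2] ![0, 2, 3, 1] (by decide) (by decide)
/-- A permutation. -/
def p0321 : Perm (Fin 4) := pm ![0, 3, 2, 1] ![0, 3, 2, 1] (by decide) (by decide)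
/-- A permutation. -/
def p1203 : Perm (Fin 4) := pm ![1, 2, 0, 3] ![2, 0, 1, 3] (by decide) (by decide)
/-- A permutation. -/
def p1230 : Perm (Fin 4) := pm ![1, 2, 3, 0] ![3, 0, 1, 2] (by decide) (by decide)
/-- A permutation. -/
def p1302 : Perm (Fin 4) := pm ![1, 3, 0, 2] ![2, 0, 3, 1] (by decide) (by decide)
/-- A permutation. -/
def p1320 : Perm (Fin 4) := pm ![1, 3, 2, 0] ![3, 0, 2, 1] (by decide) (by decide)
/-- A permutation. -/
def p2103 : Perm (Fin 4) := pm ![2, 1, 0, 3] ![2, 1, 0, 3] (by decide) (by decide)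
/-- A permutation. -/
def p2130 : Perm (Fin 4) := pm ![2, 1, 3, 0] ![3, 1, 0, 2] (by decide) (by decide)
/-- A permutation. -/
def p2301 : Perm (Fin 4) := pm ![2, 3, 0, 1] ![2, 3, 0, 1] (by decide) (by decide)
/-- A permutation. -/
def p2310 : Perm (Fin 4) := pm ![2, 3, 1, 0] ![3, 2, 0, 1] (by decide) (by decide)
/-- A permutation. -/
def p3102 : Perm (Fin 4) := pm ![3, 1, 0, 2] ![2, 1, 3, 0] (by decide) (by decide)
/-- A permutation. -/
def p3120 : Perm (Fin 4) := pm ![3, 1, 2, 0] ![3, 1, 2, 0] (by decide) (by decide)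
/-- A permutation. -/
def p3201 : Perm (Fin 4) := pm ![3, 2, 0, 1] ![2, 3, 1, 0] (by decide) (by decide)
/-- A permutation. -/
def p3210 : Perm (Fin 4) := pm ![3, 2, 1, 0] ![3, 2, 1, 0] (by decide) (by decide)

lemma no_parity (N : Perm (Fin 4) → ℤ)
    (hpar : ∀ κ, N κ % 2 = if Perm.sign κ = 1 then 0 else 1)
    (hsq : ∀ κ e, N (qa κ e) + N (qc κ e) = N (qb κ e) + N (qd κ e)) : False := by
  have h0 := hsq p1203 p0123
  rw [show qa p1203 p0123 = p1203 by decide, show qb p1203 p0123 = p2103 by decide,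
    show qc p1203 p0123 = p2130 by decide, show qd p1203 p0123 = p1230 by decide] at h0
  have h1 := hsq p1302 p0123
  rw [show qa p1302 p0123 = p1302 by decide, show qb p1302 p0123 = p3102 by decide,
    show qc p1302 p0123 = p3120 by decide, show qd p1302 p0123 = p1320 by decide] at h1
  have h2 := hsq p2301 p0123
  rw [show qa p2301 p0123 = p2301 by decide, show qb p2301 p0123 = p3201 by decide,
    show qc p2301 p0123 = p3210 by decide, show qd p2301 p0123 = p2310 by decide] at h2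
  have h3 := hsq p0213 p0213
  rw [show qa p0213 p0213 = p0123 by decide, show qb p0213 p0213 = p2103 by decide,
    show qc p0213 p0213 = p2301 by decide, show qd p0213 p0213 = p0321 by decide] at h3
  have h4 := hsq p0312 p0213
  rw [show qa p0312 p0213 = p0132 by decide, show qb p0312 p0213 = p3102 by decide,
    show qc p0312 p0213 = p3201 by decide, show qd p0312 p0213 = p0231 by decide] at h4
  have h5 := hsq p0123 p0213
  rw [show qa p0123 p0213 = p0213 by decide, show qb p0123 p0213 = p1203 by decide,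
    show qc p0123 p0213 = p1302 by decide, show qd p0123 p0213 = p0312 by decide] at h5
  have h6 := hsq p0312 p0312
  rw [show qa p0312 p0312 = p0123 by decide, show qb p0312 p0312 = p3120 by decide,
    show qc p0312 p0312 = p3210 by decide, show qd p0312 p0312 = p0213 by decide] at h6
  have h7 := hsq p0213 p0312
  rw [show qa p0213 p0312 = p0132 by decide, show qb p0213 p0312 = p2130 by decide,
    show qc p0213 p0312 = p2310 by decide, show qd p0213 p0312 = p0312 by decide] at h7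
  have h8 := hsq p0123 p0312
  rw [show qa p0123 p0312 = p0231 by decide, show qb p0123 p0312 = p1230 by decide,
    show qc p0123 p0312 = p1320 by decide, show qd p0123 p0312 = p0321 by decide] at h8
  have k0 : N p0123 % 2 = 0 := by rw [hpar, if_pos (by decide)]
  have k1 : N p0132 % 2 = 1 := by rw [hpar, if_neg (by decide)]
  have k2 : N p0213 % 2 = 1 := by rw [hpar, if_neg (by decide)]
  have k3 : N p0231 % 2 = 0 := by rw [hpar, if_pos (by decide)]
  have k4 : N p0312 % 2 = 0 := by rw [hpar, if_pos (by decide)]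
  have k5 : N p0321 % 2 = 1 := by rw [hpar, if_neg (by decide)]
  have k6 : N p1203 % 2 = 0 := by rw [hpar, if_pos (by decide)]
  have k7 : N p1230 % 2 = 1 := by rw [hpar, if_neg (by decide)]
  have k8 : N p1302 % 2 = 1 := by rw [hpar, if_neg (by decide)]
  have k9 : N p1320 % 2 = 0 := by rw [hpar, if_pos (by decide)]
  have k10 : N p2103 % 2 = 1 := by rw [hpar, if_neg (by decide)]
  have k11 : N p2130 % 2 = 0 := by rw [hpar, if_pos (by decide)]
  have k12 : N p2301 % 2 = 0 := by rw [hpar, if_pos (by decide)]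
  have k13 : N p2310 % 2 = 1 := by rw [hpar, if_neg (by decide)]
  have k14 : N p3102 % 2 = 0 := by rw [hpar, if_pos (by decide)]
  have k15 : N p3120 % 2 = 1 := by rw [hpar, if_neg (by decide)]
  have k16 : N p3201 % 2 = 1 := by rw [hpar, if_neg (by decide)]
  have k17 : N p3210 % 2 = 0 := by rw [hpar, if_pos (by decide)]
  omega

/-- **No block-structured invertible matrix function on the simplex of the permutations of four
letters.** -/
theorem no_section {u : Amb → Matrix (Fin 4) (Fin 4) ℂ}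
    (hu : ContinuousOn u (stdSimplex ℝ (Perm (Fin 4)))) (hb : Blocks u)
    (hdet : ∀ x ∈ stdSimplex ℝ (Perm (Fin 4)), (u x).det ≠ 0) : False := by
  obtain ⟨L⟩ := exists_logs hu hb hdet
  have h1 : ∀ κ, ∃ n : ℤ, L.s κ = n * (Real.pi * I) ∧ n % 2 = if Perm.sign κ = 1 then 0 else 1 := by
    intro κ
    have h := L.exp_s hb κ
    rcases Int.units_eq_one_or (Perm.sign κ) with hs | hs
    · rw [hs] at h
      simp only [Units.val_one, Int.cast_one] at h
      obtain ⟨n, hn⟩ := exp_eq_one_iff.1 h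
      refine ⟨2 * n, by rw [hn]; push_cast; ring, ?_⟩
      rw [if_pos hs]; omega
    · rw [hs] at h
      simp only [Units.val_neg, Units.val_one, Int.cast_neg, Int.cast_one] at h
      have h' : exp (L.s κ) = exp (Real.pi * I) := by rw [h, exp_pi_mul_I]
      obtain ⟨n, hn⟩ := exp_eq_exp_iff_exists_int.1 h'
      refine ⟨2 * n + 1, by rw [hn]; push_cast; ring, ?_⟩
      rw [hs, if_neg (by decide)]; omega
  choose N hN hpar using h1
  refine no_parity N hpar (fun κ e => ?_)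
  have h2 := L.square hb hu hdet κ e
  rw [hN, hN, hN, hN] at h2
  have h3 : (Real.pi * I : ℂ) ≠ 0 := mul_ne_zero (by exact_mod_cast Real.pi_ne_zero) I_ne_zero
  have h4 : ((N (qa κ e) : ℂ) + N (qc κ e)) = N (qb κ e) + N (qd κ e) := by
    apply mul_right_cancel₀ h3
    linear_combination h2
  exact_mod_cast h4

end Pool.Agent.J4.H77.Pw
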