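import Mathlib
import Pool.Agent.J4.H77.PwTop
import Pool.Agent.J4.H77.PwSpace
import Pool.Agent.J4.H77.PwCorr

set_option autoImplicit false

namespace Pool.Agent.J4.H77.Pw

open Set Topology Equiv

/-- the coordinates of the target cube -/
abbrev Idx : Type := Finset (Fin 4) × Finset (Fin 4)

/-- the ambient space of the target -/
abbrev VV : Type := Amb × (Idx → ℝ)

/-- The convex target. -/
def CC : Set VV := stdSimplex ℝ (Perm (Fin 4)) ×ˢ Set.pi Set.univ (fun _ => Icc (0 : ℝ) 1)

/-- A function on the simplex which vanishes if some permutation with a coordinate at least `1/48`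
does not map `B` onto `B'`. -/
noncomputable def cB (p : Idx) (x : Amb) : ℝ :=
  ∏ κ : Perm (Fin 4), if p.1.map κ.toEmbedding = p.2 then 1 else max 0 (1 / 48 - x κ)

lemma continuous_cB (p : Idx) : Continuous (cB p) := by
  unfold cB
  refine continuous_finsetProd _ (fun κ _ => ?_)
  by_cases h : p.1.map κ.toEmbedding = p.2
  · simp only [h, if_true]; exact continuous_const
  · simp only [h, if_false]; fun_prop

lemma cB_nonneg (p : Idx) (x : Amb) : 0 ≤ cB p x := by
  unfold cB
  refine Finset.prod_nonneg (fun κ _ => ?_)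
  split_ifs
  · exact zero_le_one
  · exact le_max_left _ _

lemma cB_le_one (p : Idx) {x : Amb} (hx : x ∈ stdSimplex ℝ (Perm (Fin 4))) : cB p x ≤ 1 := by
  unfold cB
  refine Finset.prod_le_one (fun κ _ => ?_) (fun κ _ => ?_)
  · split_ifs
    · exact zero_le_one
    · exact le_max_left _ _
  · split_ifs
    · exact le_rfl
    · apply max_le zero_le_one
      have := hx.1 κ
      linarith

lemma cB_zero (p : Idx) (x : Amb) (κ : Perm (Fin 4)) (h1 : p.1.map κ.toEmbedding ≠ p.2)
    (h2 : 1 / 48 < x κ) : cB p x = 0 := by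
  unfold cB
  apply Finset.prod_eq_zero (Finset.mem_univ κ)
  rw [if_neg h1]
  apply max_eq_left
  linarith

lemma cB_pos (p : Idx) {x : Amb} (hx : x ∈ face {κ | p.1.map κ.toEmbedding = p.2}) :
    0 < cB p x := by
  unfold cB
  refine Finset.prod_pos (fun κ _ => ?_)
  split_ifs with h
  · exact zero_lt_one
  · rw [hx.2 κ h]
    norm_num

/-- The maps of the first system, on the simplex. -/
noncomputable def sig (l : Fin 4) (x : Amb) : VV := (x, fun p => if l ∈ p.1 then cB p x else 0)

/-- The maps of the second system, on the simplex. -/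
noncomputable def tau (k : Fin 4) (x : Amb) : VV := (x, fun p => if k ∈ p.2 then cB p x else 0)

lemma continuous_sig (l : Fin 4) : Continuous (sig l) := by
  refine continuous_id.prodMk (continuous_pi fun p => ?_)
  by_cases h : l ∈ p.1
  · simp only [h, if_true]; exact continuous_cB p
  · simp only [h, if_false]; exact continuous_const

lemma continuous_tau (l : Fin 4) : Continuous (tau l) := by
  refine continuous_id.prodMk (continuous_pi fun p => ?_)
  by_cases h : l ∈ p.2
  · simp only [h, if_true]; exact continuous_cB p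
  · simp only [h, if_false]; exact continuous_const

lemma sig_mem (l : Fin 4) {x : Amb} (hx : x ∈ stdSimplex ℝ (Perm (Fin 4))) : sig l x ∈ CC := by
  refine ⟨hx, fun p _ => ?_⟩
  simp only [sig]
  split_ifs
  · exact ⟨cB_nonneg p x, cB_le_one p hx⟩
  · exact ⟨le_rfl, zero_le_one⟩

lemma tau_mem (l : Fin 4) {x : Amb} (hx : x ∈ stdSimplex ℝ (Perm (Fin 4))) : tau l x ∈ CC := by
  refine ⟨hx, fun p _ => ?_⟩
  simp only [tau]
  split_ifs
  · exact ⟨cB_nonneg p x, cB_le_one p hx⟩
  · exact ⟨le_rfl, zero_le_one⟩

lemma isCompact_CC : IsCompact CC :=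
  (isCompact_stdSimplex ℝ (Perm (Fin 4))).prod (isCompact_univ_pi fun _ => isCompact_Icc)

lemma convex_CC : Convex ℝ CC :=
  (convex_stdSimplex ℝ _).prod (convex_pi fun _ _ => convex_Icc 0 1)

lemma CC_nonempty : CC.Nonempty := ⟨sig 0 (vtx 1), sig_mem 0 (vtx_mem (mem_univ 1)).1⟩

/-- the simplex -/
abbrev Del : Type := stdSimplex ℝ (Perm (Fin 4))

/-- The space. -/
abbrev XX (z : ℕ → VV) : Type := Del ⊕ T CC z

section

variable {z : ℕ → VV}

lemma cocompact_of_compact {X : Type} [TopologicalSpace X] [CompactSpace X] (f : X → X) :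
    Filter.Tendsto f (Filter.cocompact X) (Filter.cocompact X) := by
  simp

/-- The maps of a system, from their restriction to the simplex. -/
noncomputable def sysFun (f : Amb → VV) (hf : ∀ x ∈ stdSimplex ℝ (Perm (Fin 4)), f x ∈ CC) :
    XX z → XX z :=
  Sum.elim (fun x => Sum.inr (inC ⟨f x, hf x x.2⟩)) (fun t => Sum.inr (shiftT t))

lemma continuous_sysFun (hz : Slow z CC) {f : Amb → VV} (hc : Continuous f)
    (hf : ∀ x ∈ stdSimplex ℝ (Perm (Fin 4)), f x ∈ CC) :
    Continuous (sysFun f hf : XX z → XX z) := by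
  refine continuous_sumElim.2 ⟨?_, ?_⟩
  · refine continuous_inr.comp (continuous_inC.comp ?_)
    exact (hc.comp continuous_subtype_val).subtype_mk _
  · exact continuous_inr.comp (continuous_shiftT hz)

/-- The maps of a system. -/
noncomputable def sys (hz : Slow z CC) [CompactSpace (XX z)] {f : Amb → VV} (hc : Continuous f)
    (hf : ∀ x ∈ stdSimplex ℝ (Perm (Fin 4)), f x ∈ CC) : CocompactMap (XX z) (XX z) where
  toFun := sysFun f hf
  continuous_toFun := continuous_sysFun hz hc hf
  cocompact_tendsto' := cocompact_of_compact _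

lemma exists_col {M : Matrix (Fin 4) (Fin 4) ℂ} (h : M.det ≠ 0) (j : Fin 4) : ∃ i, M i j ≠ 0 := by
  by_contra hcon
  push Not at hcon
  exact h (Matrix.det_eq_zero_of_column_eq_zero j hcon)

lemma not_isOpen_del (x : Del) : ¬ IsOpen ({x} : Set Del) := by
  have hconn : ConnectedSpace Del := by
    rw [← isConnected_iff_connectedSpace]
    refine ⟨⟨vtx 1, (vtx_mem (mem_univ 1)).1⟩, (convex_stdSimplex ℝ _).isPreconnected⟩
  have hnt : Nontrivial Del := by
    refine ⟨⟨vtx 1, (vtx_mem (mem_univ 1)).1⟩, ⟨vtx (swap 0 1), (vtx_mem (mem_univ _)).1⟩, ?_⟩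
    intro h
    have h1 := congrFun (congrArg Subtype.val h) 1
    have h2 : (1 : Perm (Fin 4)) ≠ swap 0 1 := by decide
    simp [vtx, h2] at h1
  intro h
  have h1 : IsClopen ({x} : Set Del) := ⟨isClosed_singleton, h⟩
  rcases isClopen_iff.1 h1 with h2 | h2
  · exact singleton_ne_empty x h2
  · obtain ⟨y, hy⟩ := exists_ne x
    have : y ∈ ({x} : Set Del) := by rw [h2]; exact mem_univ y
    exact hy this

theorem rigid (hz : Slow z CC) {s t : Fin 4 → XX z → XX z}
    {fs ft : Fin 4 → Amb → VV} (hfs : ∀ i, ∀ x ∈ stdSimplex ℝ (Perm (Fin 4)), fs i x ∈ CC)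
    (hft : ∀ i, ∀ x ∈ stdSimplex ℝ (Perm (Fin 4)), ft i x ∈ CC)
    (hs : ∀ i, s i = sysFun (fs i) (hfs i)) (ht : ∀ i, t i = sysFun (ft i) (hft i))
    (h1s : ∀ i x, (fs i x).1 = x) (h1t : ∀ i x, (ft i x).1 = x)
    (g : XX z ≃ₜ XX z) (hg : ∀ y, ∃ i j, s j (g y) = g (t i y)) : ∀ y, g y = y := by
  -- isolated points
  have hiso : ∀ x : XX z, IsOpen ({x} : Set (XX z)) → ∃ k, x = Sum.inr (inN k) := by
    intro x hx
    rcases x with x | x
    · exfalso
      apply not_isOpen_del x
      have := hx.preimage (continuous_inl (X := Del) (Y := T CC z))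
      convert this using 1
      ext y; simp
    · rcases T.cases x with ⟨c, rfl⟩ | ⟨k, rfl⟩
      · exfalso
        apply not_isOpen_inC hz c
        have := hx.preimage (continuous_inr (X := Del) (Y := T CC z))
        convert this using 1
        ext y; simp
      · exact ⟨k, rfl⟩
  have hopen : ∀ k : ℕ, IsOpen ({Sum.inr (inN k)} : Set (XX z)) := by
    intro k
    have := isOpenMap_inr (X := Del) (Y := T CC z) _ (isOpen_inN k)
    simpa using this
  have hm : ∀ k : ℕ, ∃ m : ℕ, g (Sum.inr (inN k)) = Sum.inr (inN m) := by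
    intro k
    apply hiso
    have := g.isOpenMap _ (hopen k)
    simpa using this
  choose m hm using hm
  have hinj : Function.Injective m := by
    intro k l hkl
    have h1 : g (Sum.inr (inN k)) = g (Sum.inr (inN l)) := by rw [hm, hm, hkl]
    exact inN_injective (Sum.inr_injective (g.injective h1))
  have hrec : ∀ k, m k - 1 = m (k - 1) := by
    intro k
    obtain ⟨i, j, hij⟩ := hg (Sum.inr (inN k))
    rw [hm, hs, ht] at hij
    have h1 : sysFun (fs j) (hfs j) (Sum.inr (inN (m k)) : XX z) = Sum.inr (inN (m k - 1)) := rfl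
    have h2 : sysFun (ft i) (hft i) (Sum.inr (inN k) : XX z) = Sum.inr (inN (k - 1)) := rfl
    rw [h1, h2, hm] at hij
    exact inN_injective (Sum.inr_injective hij)
  have hid : ∀ k, m k = k := by
    intro k
    induction k with
    | zero => have h := hrec 0; rw [Nat.zero_sub] at h; omega
    | succ k ih =>
      have h1 := hrec (k + 1)
      rw [Nat.add_sub_cancel, ih] at h1
      rcases Nat.eq_zero_or_pos (m (k + 1)) with h2 | h2
      · have h3 : k = 0 := by omega
        have h4 : m (k + 1) = m k := by rw [h2, ih, h3]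
        have := hinj h4
        omega
      · omega
  have hT : ∀ t : T CC z, g (Sum.inr t) = Sum.inr t := by
    intro t
    have hcl : IsClosed {t : T CC z | g (Sum.inr t) = Sum.inr t} :=
      isClosed_eq (g.continuous.comp continuous_inr) continuous_inr
    have hsub : range (inN : ℕ → T CC z) ⊆ {t : T CC z | g (Sum.inr t) = Sum.inr t} := by
      rintro _ ⟨k, rfl⟩
      simp only [mem_ofPred_eq]
      rw [hm, hid]
    exact closure_minimal hsub hcl (mem_closure_inN hz t)
  rintro (x | t)
  · obtain ⟨i, j, hij⟩ := hg (Sum.inl x)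
    rcases hgx : g (Sum.inl x) with x' | t'
    · rw [hgx, hs, ht] at hij
      have h1 : sysFun (fs j) (hfs j) (Sum.inl x' : XX z) =
          Sum.inr (inC ⟨fs j x', hfs j x' x'.2⟩) := rfl
      have h2 : sysFun (ft i) (hft i) (Sum.inl x : XX z) =
          Sum.inr (inC ⟨ft i x, hft i x x.2⟩) := rfl
      rw [h1, h2, hT] at hij
      have h3 := congrArg Subtype.val (inC_injective (Sum.inr_injective hij))
      have h4 : (fs j x').1 = (ft i x).1 := congrArg Prod.fst h3
      rw [h1s, h1t] at h4
      rw [Subtype.ext h4]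
    · exfalso
      have h1 : g (Sum.inl x) = g (Sum.inr t') := by rw [hT, hgx]
      exact Sum.inl_ne_inr (g.injective h1)
  · exact hT t

end

theorem main : ∃ (X : Type) (_ : TopologicalSpace X) (_ : T2Space X) (_ : CompactSpace X)
    (_ : TopologicalSpace.MetrizableSpace X) (σ τ : Fin 4 → CocompactMap X X),
    PiecewiseConjugate σ τ ∧ ¬ UnitarilyEquivalent σ τ := by
  obtain ⟨z, hz⟩ := exists_slow isCompact_CC convex_CC CC_nonempty
  have : CompactSpace (T CC z) := compactSpace_T isCompact_CC hz
  have : CompactSpace Del := isCompact_iff_compactSpace.1 (isCompact_stdSimplex ℝ (Perm (Fin 4)))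
  let σ : Fin 4 → CocompactMap (XX z) (XX z) := fun l =>
    sys hz (continuous_sig l) (fun x hx => sig_mem l hx)
  let τ : Fin 4 → CocompactMap (XX z) (XX z) := fun l =>
    sys hz (continuous_tau l) (fun x hx => tau_mem l hx)
  refine ⟨XX z, inferInstance, inferInstance, inferInstance, inferInstance, σ, τ, ?_, ?_⟩
  · refine ⟨Homeomorph.refl _, fun π => (Sum.inl '' {x : Del | 1 / 48 < (x : Amb) π⁻¹}) ∪
      range Sum.inr, ?_, ?_, ?_⟩
    · intro π
      apply IsOpen.union
      · apply isOpenMap_inl
        exact isOpen_lt continuous_const ((continuous_apply _).comp continuous_subtype_val)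
      · exact isOpen_range_inr
    · rw [eq_univ_iff_forall]
      rintro (x | t)
      · rw [mem_iUnion]
        by_contra hcon
        push Not at hcon
        have h1 : ∀ κ : Perm (Fin 4), (x : Amb) κ ≤ 1 / 48 := by
          intro κ
          have h3 := hcon κ⁻¹
          by_contra h2
          apply h3
          left
          refine ⟨x, ?_, rfl⟩
          simp only [mem_ofPred_eq, inv_inv]
          exact not_le.1 h2
        have h2 : ∑ κ : Perm (Fin 4), (x : Amb) κ ≤ ∑ _κ : Perm (Fin 4), (1 / 48 : ℝ) :=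
          Finset.sum_le_sum (fun κ _ => h1 κ)
        have hs : ∑ κ : Perm (Fin 4), (x : Amb) κ = 1 := x.2.2
        rw [hs, Finset.sum_const, Finset.card_univ, Fintype.card_perm, Fintype.card_fin] at h2
        norm_num [Nat.factorial] at h2
      · rw [mem_iUnion]
        exact ⟨1, Or.inr ⟨t, rfl⟩⟩
    · intro π x hx i
      rcases hx with ⟨x, hx', rfl⟩ | ⟨t, rfl⟩
      · simp only [mem_ofPred_eq] at hx'
        have h1 : tau i (x : Amb) = sig (π i) (x : Amb) := by
          refine Prod.ext rfl (funext fun p => ?_)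
          simp only [tau, sig]
          by_cases hp : p.1.map (π⁻¹ : Perm (Fin 4)).toEmbedding = p.2
          · have : i ∈ p.2 ↔ π i ∈ p.1 := by
              rw [← hp]
              simp only [Finset.mem_map_equiv]
              rfl
            simp only [this]
          · rw [cB_zero p x _ hp hx']
            simp
        have h2 : τ i (Sum.inl x) = Sum.inr (inC ⟨tau i (x : Amb), tau_mem i x.2⟩) := rfl
        have h3 : σ (π i) (Sum.inl x) = Sum.inr (inC ⟨sig (π i) (x : Amb), sig_mem (π i) x.2⟩) := rfl
        show τ i (Sum.inl x) = σ (π i) (Sum.inl x)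
        rw [h2, h3]
        congr 2
        exact Subtype.ext h1
      · rfl
  · intro h
    obtain ⟨g, u, hu, hdet, hug⟩ := extract h
    have hrig : ∀ y, g y = y := by
      refine rigid hz (s := fun i => σ i) (t := fun i => τ i)
        (fs := sig) (ft := tau) (fun i x hx => sig_mem i hx) (fun i x hx => tau_mem i hx)
        (fun i => rfl) (fun i => rfl) (fun i x => rfl) (fun i x => rfl) g ?_
      intro y
      obtain ⟨i, hi⟩ := exists_col (hdet y) 0
      exact ⟨i, 0, hug y i 0 hi⟩
    classical
    let v : Amb → Matrix (Fin 4) (Fin 4) ℂ := fun x =>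
      if hx : x ∈ stdSimplex ℝ (Perm (Fin 4)) then u (Sum.inl ⟨x, hx⟩) else 0
    have hv : ∀ x (hx : x ∈ stdSimplex ℝ (Perm (Fin 4))), v x = u (Sum.inl ⟨x, hx⟩) := by
      intro x hx
      simp only [v, dif_pos hx]
    apply no_section (u := v)
    · rw [continuousOn_iff_continuous_domRestrict]
      have : Continuous fun x : Del => u (Sum.inl x) := hu.comp continuous_inl
      convert this using 1
      ext1 x
      exact hv x x.2
    · intro B B' x hx k l hkl
      by_contra hne
      rw [hv x hx.1] at hne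
      have h1 := hug _ _ _ hne
      rw [hrig, hrig] at h1
      have h2 : τ k (Sum.inl ⟨x, hx.1⟩) = Sum.inr (inC ⟨tau k x, tau_mem k hx.1⟩) := rfl
      have h3 : σ l (Sum.inl ⟨x, hx.1⟩) = Sum.inr (inC ⟨sig l x, sig_mem l hx.1⟩) := rfl
      rw [h2, h3] at h1
      have h4 := congrArg Subtype.val (inC_injective (Sum.inr_injective h1))
      have h5 : (sig l x).2 (B, B') = (tau k x).2 (B, B') := congrFun (congrArg Prod.snd h4) _
      have h6 : 0 < cB (B, B') x := cB_pos (B, B') hx
      simp only [sig, tau] at h5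
      by_cases hl : l ∈ B <;> by_cases hk : k ∈ B'
      · exact hkl ⟨fun _ => hk, fun _ => hl⟩
      · rw [if_pos hl, if_neg hk] at h5; linarith
      · rw [if_neg hl, if_pos hk] at h5; linarith
      · exact hkl ⟨fun h => absurd h hl, fun h => absurd h hk⟩
    · intro x hx
      rw [hv x hx]
      exact hdet _

end Pool.Agent.J4.H77.Pw
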